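import Pool.Agent.H40.Erp

open Pool.Agent.H40.Fpt Pool.Agent.H40.Erp in
theorem Pool.Agent.Results.MP_5814e0_lc.NoFiniteWitness.result :
    ∃ (L : FirstOrder.Language.{0, 0}) (M : Type) (_ : L.Structure M), IsFraisseStructure L M ∧
      ∃ (A : Type) (_ : L.Structure A) (n : ℕ) (a : Fin n → A) (B : Type) (_ : L.Structure B),
        InAge L M A ∧ Function.Bijective a ∧ InAge L M B ∧ Arrow L M Set.univ B a 2 ∧
        ∀ (C : Type) [L.Structure C], InAge L M C →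
          ¬ ∀ g : L.Embedding C M, Arrow L M (Set.range g) B a 2 :=
  ⟨LX ℤ, ℤ, str s1, fraisse s1, sub hLX ({0} : Set ℤ), inferInstance, 1, a0,
    sub hLX ({0, 1} : Set ℤ), inferInstance,
    ⟨(Set.finite_singleton (0 : ℤ)).to_subtype, ⟨(sub hLX _).subtype⟩⟩,
    ⟨fun _ _ _ => Subsingleton.elim _ _, fun x => ⟨0, Subtype.ext x.2.symm⟩⟩,
    ⟨(Set.toFinite ({0, 1} : Set ℤ)).to_subtype, ⟨(sub hLX _).subtype⟩⟩, arrow,
    fun _ _ ⟨_, ⟨g⟩⟩ h => not_arrow _ (Set.finite_range g) (h g)⟩
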